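import Pool.Agent.U131.MW.C
import Pool.Agent.U131.MW.D

open MeasureTheory Set Filter
open scoped ENNReal Topology

namespace U131.OC
open U131.MW

/-- a set of naturals which meets `[y, y + C y ^ (1 - κ)]` for all `y ≥ 1` -/
def GapK (κ : ℝ) (A : Set ℕ) : Prop :=
  ∃ C : ℝ, ∀ y : ℝ, 1 ≤ y → ∃ a ∈ A, y ≤ (a : ℝ) ∧ (a : ℝ) ≤ y + C * y ^ (1 - κ)

lemma gap_pos {κ : ℝ} {A : Set ℕ} (h : GapK κ A) :
    ∃ C : ℝ, 1 ≤ C ∧ ∀ y : ℝ, 1 ≤ y → ∃ a ∈ A, y ≤ (a : ℝ) ∧
      (a : ℝ) ≤ y + C * y ^ (1 - κ) := by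
  obtain ⟨C, hC⟩ := h
  refine ⟨max C 1, le_max_right _ _, fun y hy => ?_⟩
  obtain ⟨a, ha, h1, h2⟩ := hC y hy
  refine ⟨a, ha, h1, h2.trans ?_⟩
  have : 0 ≤ y ^ (1 - κ) := by positivity
  have := mul_le_mul_of_nonneg_right (le_max_left C 1) this
  linarith

/-- many well-spaced elements of a gap set -/
lemma points {κ : ℝ} (hκ0 : 0 < κ) (hκ1 : κ ≤ 1) {A : Set ℕ} (hA : GapK κ A) {ε : ℝ} (hε : 0 < ε)
    (hεk : ε ≤ κ) :
    ∀ᶠ i in atTop, ∃ (b : ℕ → ℕ) (L : ℕ) (G : ℝ), (∀ l < L, b l ∈ A) ∧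
      (∀ l < L, (b l : ℝ) ≤ 2 * NN i) ∧ 0 < G ∧
      (∀ l < L, ∀ l' < L, G * |(l : ℝ) - l'| ≤ |(b l : ℝ) - b l'|) ∧
      NN i ^ (κ - ε) ≤ L ∧ (L : ℝ) ≤ NN i ^ (κ + ε) ∧
      NN i ^ (1 - κ - ε) ≤ G ∧ hs L ≤ NN i ^ ε := by
  obtain ⟨C, hC1, hC⟩ := gap_pos hA
  have hC0 : 0 < C := by linarith
  set c : ℝ := 1 / (2 * (C * 2 ^ (1 - κ))) with hc
  have hc0 : 0 < c := by positivity
  filter_upwards [absorb' (2 / c) (show κ - ε < κ by linarith), absorb 1 hε] with i h1 h2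
  have hN1 := NN_one_le i
  have hN0 := NN_pos i
  set N := NN i with hN
  set G : ℝ := C * (2 * N) ^ (1 - κ) with hG
  have hG0 : 0 < G := by positivity
  have hGN : N ^ (1 - κ) ≤ G := by
    have h3 : N ^ (1 - κ) ≤ (2 * N) ^ (1 - κ) :=
      Real.rpow_le_rpow hN0.le (by linarith) (by linarith)
    have h4 : 0 ≤ (2 * N) ^ (1 - κ) := by positivity
    nlinarith
  have hNG : N / (2 * G) = c * N ^ κ := by
    have h5 : N = N ^ κ * N ^ (1 - κ) := by
      rw [← Real.rpow_add hN0]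
      simp
    rw [hG, Real.mul_rpow (by norm_num) hN0.le, hc]
    have h6 : 0 < N ^ (1 - κ) := by positivity
    have h7 : 0 < (2:ℝ) ^ (1 - κ) := by positivity
    rw [div_eq_iff (by positivity)]
    calc N = N ^ κ * N ^ (1 - κ) := h5
      _ = _ := by field_simp
  set L : ℕ := ⌊N / (2 * G)⌋₊ with hL
  have hL1 : (L : ℝ) ≤ N / (2 * G) := Nat.floor_le (by positivity)
  have hL2 : N / (2 * G) < L + 1 := Nat.lt_floor_add_one _
  have hL3 : (L : ℝ) * (2 * G) ≤ N := by rwa [le_div_iff₀ (by positivity)] at hL1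
  have hpt : ∀ l : ℕ, ∃ b : ℕ, l < L → b ∈ A ∧ N + l * (2 * G) ≤ (b : ℝ) ∧
      (b : ℝ) ≤ N + l * (2 * G) + G := by
    intro l
    by_cases hl : l < L
    · have hl' : (l : ℝ) + 1 ≤ L := by exact_mod_cast hl
      have hy2 : N + l * (2 * G) ≤ 2 * N := by nlinarith
      have hy1 : 1 ≤ N + l * (2 * G) := by
        have : 0 ≤ (l : ℝ) * (2 * G) := by positivity
        linarith
      obtain ⟨b, hb, h3, h4⟩ := hC _ hy1
      refine ⟨b, fun _ => ⟨hb, h3, h4.trans ?_⟩⟩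
      have h5 : (N + l * (2 * G)) ^ (1 - κ) ≤ (2 * N) ^ (1 - κ) :=
        Real.rpow_le_rpow (by linarith) hy2 (by linarith)
      have h6 := mul_le_mul_of_nonneg_left h5 hC0.le
      linarith
    · exact ⟨0, fun h => absurd h hl⟩
  choose b hb using hpt
  have hLlow : N ^ (κ - ε) ≤ L := by
    have h3 : 1 ≤ N ^ (κ - ε) := Real.one_le_rpow hN1 (by linarith)
    have h4 : 2 * N ^ (κ - ε) ≤ c * N ^ κ := by
      have h5 := mul_le_mul_of_nonneg_left h1 hc0.le
      have h6 : c * (2 / c * N ^ (κ - ε)) = 2 * N ^ (κ - ε) := by field_simp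
      rw [h6] at h5
      exact h5
    rw [hNG] at hL2
    linarith
  have hLup : (L : ℝ) ≤ N ^ κ := by
    have h3 : N / (2 * G) ≤ N ^ κ := by
      rw [div_le_iff₀ (by positivity)]
      have h5 : N = N ^ κ * N ^ (1 - κ) := by
        rw [← Real.rpow_add hN0]
        simp
      have h6 : N ^ κ * N ^ (1 - κ) ≤ N ^ κ * (2 * G) :=
        mul_le_mul_of_nonneg_left (by linarith) (by positivity)
      linarith
    linarith
  refine ⟨b, L, G, fun l hl => (hb l hl).1, fun l hl => ?_, hG0, ?_, hLlow,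
    hLup.trans (Real.rpow_le_rpow_of_exponent_le hN1 (by linarith)),
    (Real.rpow_le_rpow_of_exponent_le hN1 (by linarith)).trans hGN, ?_⟩
  · have h3 := (hb l hl).2.2
    have hl' : (l : ℝ) + 1 ≤ L := by exact_mod_cast hl
    nlinarith
  · have key : ∀ l < L, ∀ l' < L, l' < l → G * |(l : ℝ) - l'| ≤ |(b l : ℝ) - b l'| := by
      intro l hl l' hl' hlt
      have h3 := (hb l hl).2.1
      have h4 := (hb l' hl').2.2
      have h5 : (l' : ℝ) + 1 ≤ l := by exact_mod_cast hlt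
      rw [abs_of_nonneg (by linarith)]
      refine le_trans ?_ (le_abs_self _)
      nlinarith
    intro l hl l' hl'
    rcases lt_trichotomy l l' with h | h | h
    · rw [abs_sub_comm, abs_sub_comm (b l : ℝ)]
      exact key l' hl' l hl h
    · subst h
      simp
    · exact key l hl l' hl' h
  · refine (hs_le L).trans ?_
    have h3 : 1 ≤ (L : ℝ) := le_trans (Real.one_le_rpow hN1 (by linarith)) hLlow
    have h4 : Real.log L ≤ i := by
      refine (Real.log_le_log (by linarith) hLup).trans ?_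
      rw [Real.log_rpow hN0, hN]
      unfold NN
      rw [Real.log_pow]
      have h5 : Real.log 2 ≤ 1 := by
        have := Real.log_two_lt_d9
        linarith
      have h6 : 0 ≤ Real.log 2 := Real.log_nonneg (by norm_num)
      have h7 : κ * (i * Real.log 2) ≤ 1 * (i * 1) := by
        apply mul_le_mul hκ1 _ (by positivity) (by norm_num)
        exact mul_le_mul_of_nonneg_left h5 (by positivity)
      simpa using h7
    rw [Real.rpow_zero] at h2
    linarith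


end U131.OC
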