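import Pool.Agent.U131.OC.A
import Pool.Agent.U131.MW.B

open MeasureTheory Set Filter
open scoped ENNReal Topology

namespace U131.OC
open U131.MW

/-- the real points of a set of naturals -/
def pt (A : Set ℕ) : Set ℝ := (fun n : ℕ => (n : ℝ)) '' A

lemma pt_countable (A : Set ℕ) : (pt A).Countable := (Set.to_countable A).image _

lemma start {κ : ℝ} (hκ0 : 0 < κ) (hκ1 : κ ≤ 1) {A : Set ℕ} (hA : GapK κ A) {τ h ε : ℝ} (hτ : 0 ≤ τ)
    (hh0 : 0 < h) (hh1 : h ≤ 1) (hε : 0 < ε) {hi : ℝ} (hhi : 1 ≤ hi) :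
    ∃ F : ℕ → ℝ → ℝ, ∃ c : ℕ → ℝ, ∀ᶠ i in atTop,
      Nice (F i) ∧ Disc (F i) (NN i ^ (-τ + ε)) ∧ l1 (F i) ≤ NN i ^ (κ - τ + ε) ∧
      en (F i) ≤ NN i ^ (κ - τ + ε) ∧ NN i ^ (-τ - 1 + κ - ε) ≤ c i ∧
      Rel (F i) (pt A) (h * NN i ^ (-τ)) (NN i) (hi * NN i) (c i) := by
  obtain ⟨C, hC1, hC⟩ := gap_pos hA
  have hC0 : 0 < C := by linarith
  have hhi0 : 0 < hi := by linarith
  set cH : ℝ := C * hi ^ (1 - κ) + 1 with hcH
  have hcH1 : 1 ≤ cH := by
    have : 0 ≤ C * hi ^ (1 - κ) := by positivity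
    linarith
  have hcH0 : 0 < cH := by linarith
  let H : ℕ → ℝ := fun i => h * NN i ^ (-τ)
  let H0 : ℕ → ℝ := fun i => cH * NN i ^ (1 - κ)
  let L : ℕ → ℕ := fun i => ⌊(hi - 1) * NN i / H0 i⌋₊ + 1
  have hH0 : ∀ i, 0 < H i := fun i => mul_pos hh0 (NN_rpow_pos i _)
  have hH00 : ∀ i, 0 < H0 i := fun i => mul_pos hcH0 (NN_rpow_pos i _)
  have hHH : ∀ i, H i ≤ NN i ^ (1 - κ) := fun i => by
    have h1 : H i ≤ 1 * NN i ^ (-τ) := mul_le_mul_of_nonneg_right hh1 (NN_rpow_pos i _).le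
    rw [one_mul] at h1
    exact h1.trans (NN_rpow_mono i (by linarith))
  have hHH0 : ∀ i, H i ≤ H0 i := by
    intro i
    refine (hHH i).trans ?_
    have := NN_rpow_pos i (1 - κ)
    show NN i ^ (1 - κ) ≤ cH * NN i ^ (1 - κ)
    nlinarith
  have hpt : ∀ i l : ℕ, ∃ s : ℝ, l < L i → s ∈ pt A ∧ NN i + l * H0 i ≤ s ∧
      s + H i ≤ NN i + l * H0 i + H0 i := by
    intro i l
    by_cases hl : l < L i
    · have hN1 := NN_one_le i
      have hl1 : l ≤ ⌊(hi - 1) * NN i / H0 i⌋₊ := Nat.lt_succ_iff.1 hl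
      have h0 : 0 ≤ (hi - 1) * NN i / H0 i :=
        div_nonneg (mul_nonneg (by linarith) (NN_pos i).le) (hH00 i).le
      have hl2 : (l : ℝ) ≤ (hi - 1) * NN i / H0 i :=
        (Nat.le_floor_iff h0).1 hl1
      have hl3 : (l : ℝ) * H0 i ≤ (hi - 1) * NN i := by
        rwa [le_div_iff₀ (hH00 i)] at hl2
      have hlH : 0 ≤ (l : ℝ) * H0 i := mul_nonneg (Nat.cast_nonneg _) (hH00 i).le
      have hx2 : NN i + l * H0 i ≤ hi * NN i := by linarith
      have hy1 : 1 ≤ NN i + l * H0 i := by linarith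
      obtain ⟨n, hn, h1, h2⟩ := hC _ hy1
      refine ⟨n, fun _ => ⟨⟨n, hn, rfl⟩, h1, ?_⟩⟩
      have h4 : (NN i + l * H0 i) ^ (1 - κ) ≤ (hi * NN i) ^ (1 - κ) :=
        Real.rpow_le_rpow (by linarith) hx2 (by linarith)
      rw [Real.mul_rpow hhi0.le (NN_pos i).le] at h4
      have h5 := mul_le_mul_of_nonneg_left h4 hC0.le
      have h6 : H0 i = C * (hi ^ (1 - κ) * NN i ^ (1 - κ)) + NN i ^ (1 - κ) := by
        show cH * NN i ^ (1 - κ) = _
        rw [hcH]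
        ring
      have h7 := hHH i
      linarith
    · exact ⟨0, fun h => absurd h hl⟩
  choose s hs using hpt
  refine ⟨fun i => st (s i) (H i) (NN i) (H0 i) (L i), fun i => H i / H0 i, ?_⟩
  filter_upwards [absorb' 2 (show -τ < -τ + ε by linarith),
    absorb' (2 * (hi - 1 + 1)) (show κ - τ < κ - τ + ε by linarith),
    absorb' (cH / h) (show -τ - ε < -τ by linarith)] with i h1 h2 h3
  have hN0 := NN_pos i
  have hN1 := NN_one_le i
  have hH := NN_rpow_pos i (-τ)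
  have hHle : H i ≤ NN i ^ (-τ) := by
    have := mul_le_mul_of_nonneg_right hh1 hH.le
    rwa [one_mul] at this
  have hLle : (L i : ℝ) ≤ (hi - 1 + 1) * NN i ^ κ := by
    have h0 : 0 ≤ (hi - 1) * NN i / H0 i :=
      div_nonneg (mul_nonneg (by linarith) (NN_pos i).le) (hH00 i).le
    have h4 : (L i : ℝ) ≤ (hi - 1) * NN i / H0 i + 1 := by
      show ((⌊(hi - 1) * NN i / H0 i⌋₊ + 1 : ℕ) : ℝ) ≤ _
      push_cast
      linarith [Nat.floor_le h0]
    have h5 : (hi - 1) * NN i / H0 i ≤ (hi - 1) * NN i ^ κ := by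
      rw [div_le_iff₀ (hH00 i)]
      have h6 : NN i = NN i ^ κ * NN i ^ (1 - κ) := by
        rw [← Real.rpow_add hN0]
        simp
      have h7 : NN i ^ κ * NN i ^ (1 - κ) ≤ NN i ^ κ * H0 i := by
        apply mul_le_mul_of_nonneg_left _ (NN_rpow_pos i κ).le
        show NN i ^ (1 - κ) ≤ cH * NN i ^ (1 - κ)
        have := NN_rpow_pos i (1 - κ)
        nlinarith
      rw [← h6] at h7
      have := mul_le_mul_of_nonneg_left h7 (show 0 ≤ hi - 1 by linarith)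
      linarith
    have h8 : 1 ≤ NN i ^ κ := Real.one_le_rpow hN1 hκ0.le
    linarith
  have hl1 : (L i : ℝ) * (2 * H i) ≤ NN i ^ (κ - τ + ε) := by
    have h4 : (L i : ℝ) * (2 * H i) ≤
        (hi - 1 + 1) * NN i ^ κ * (2 * NN i ^ (-τ)) :=
      mul_le_mul hLle (by linarith) (by linarith [hH0 i]) (by positivity)
    have h5 : (hi - 1 + 1) * NN i ^ κ * (2 * NN i ^ (-τ)) =
        2 * (hi - 1 + 1) * NN i ^ (κ - τ) := by
      rw [show κ - τ = κ + (-τ) by ring, Real.rpow_add hN0]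
      ring
    linarith
  have hs1 : ∀ l < L i, NN i + l * H0 i ≤ s i l := fun l hl => (hs i l hl).2.1
  have hs2 : ∀ l < L i, s i l + H i ≤ NN i + l * H0 i + H0 i :=
    fun l hl => (hs i l hl).2.2
  refine ⟨st_nice _ _ _ _ _, ?_, ?_, ?_, ?_, ?_⟩
  · intro x y
    refine ((st_disc (hH0 i).le (hH00 i) hs1 hs2) x y).trans ?_
    linarith
  · exact (st_l1 (hH0 i).le (hH00 i)).trans hl1
  · exact (st_en (hH0 i).le (hH00 i) (hHH0 i) hs1 hs2).trans hl1
  · rw [le_div_iff₀ (hH00 i)]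
    show NN i ^ (-τ - 1 + κ - ε) * (cH * NN i ^ (1 - κ)) ≤ h * NN i ^ (-τ)
    have h4 : NN i ^ (-τ - 1 + κ - ε) * (cH * NN i ^ (1 - κ)) = h * (cH / h * NN i ^ (-τ - ε)) := by
      have : NN i ^ (-τ - ε) = NN i ^ (-τ - 1 + κ - ε) * NN i ^ (1 - κ) := by
        rw [← Real.rpow_add hN0]
        congr 1
        ring
      rw [this]
      field_simp
    rw [h4]
    exact mul_le_mul_of_nonneg_left h3 hh0.le
  · refine st_rel (hH00 i) hs1 hs2 (fun l hl => (hs i l hl).1) ?_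
    have h0 : (hi - 1) * NN i / H0 i < L i := by
      show _ < ((⌊(hi - 1) * NN i / H0 i⌋₊ + 1 : ℕ) : ℝ)
      push_cast
      exact Nat.lt_floor_add_one _
    rw [div_lt_iff₀ (hH00 i)] at h0
    linarith

/-- the mean over the coefficient of the measure of the exceptional set -/
lemma mean {κ μ : ℝ} (hκ0 : 0 < κ) (hκ1 : κ ≤ 1) (hμ0 : 0 < μ) (hμ1 : μ ≤ 1) {A B : Set ℕ}
    (hA : GapK κ A) (hB : GapK μ B) {τ h : ℝ} (hτ : 0 ≤ τ) (hh0 : 0 < h) (hh1 : h ≤ 1)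
    {p q hi : ℝ} (hp : 0 < p) (hpq : p ≤ q) (hhi : 1 ≤ hi) {η : ℝ} (hη : 0 < η) :
    ∀ᶠ i in atTop, ∫⁻ a in Ioc p q, volume (Ex (add (pt A) a B) (h * NN i ^ (-τ))
      ((1 + 2 * q) * NN i) (hi * NN i)) ≤ ENNReal.ofReal (NN i ^ (2 - κ - μ + τ + η)) := by
  obtain ⟨ε, hε, hεμ, hε16⟩ : ∃ ε : ℝ, 0 < ε ∧ ε ≤ μ ∧ 16 * ε ≤ η :=
    ⟨min μ (η / 16), lt_min hμ0 (by positivity), min_le_left _ _, by
      have := min_le_right μ (η / 16)
      linarith⟩
  obtain ⟨F, c, hF⟩ := start hκ0 hκ1 hA hτ hh0 hh1 hε hhi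
  filter_upwards [hF, points hμ0 hμ1 hB hε hεμ, absorb' ((q - p) + 2)
    (show κ + μ - τ + 5 * ε < κ + μ - τ + 6 * ε by linarith)] with i hFi hYi habs
  obtain ⟨hn, hD, hl1, hen, hc, hrel⟩ := hFi
  obtain ⟨b, L, G, hb1, hb2, hG0, hb3, hL1, hL2, hG1, hhs⟩ := hYi
  have hNpos := NN_pos i
  have hc0 : 0 < c i := (NN_rpow_pos i _).trans_le hc
  have hLpos : 0 < (L : ℝ) := (NN_rpow_pos i _).trans_le hL1
  have hLc : 0 < (L : ℝ) * c i := mul_pos hLpos hc0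
  have hint := en_tr_int hn (fun l => (b l : ℝ)) L p q
  have hbound : ∀ a ∈ Ioc p q, volume (Ex (add (pt A) a B) (h * NN i ^ (-τ))
      ((1 + 2 * q) * NN i) (hi * NN i)) ≤
      ENNReal.ofReal (en (tr (fun l => (b l : ℝ)) L a (F i)) / ((L : ℝ) * c i) ^ 2) := by
    intro a ha
    have hrel2 := rel_tr (b := b) hrel hb1 hb2 (hp.trans ha.1).le ha.2
    have e1 : NN i + q * (2 * NN i) = (1 + 2 * q) * NN i := by ring
    rw [e1] at hrel2
    exact vol_ex_le (hn.tr _ L a) hrel2 hLc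
  refine (setLIntegral_mono' measurableSet_Ioc hbound).trans ?_
  have hint2 : Integrable (fun a => en (tr (fun l => (b l : ℝ)) L a (F i)) / ((L : ℝ) * c i) ^ 2)
      (volume.restrict (Ioc p q)) := hint.div_const _
  rw [← ofReal_integral_eq_lintegral_ofReal hint2
    (Eventually.of_forall fun a => div_nonneg (en_nonneg _) (sq_nonneg _))]
  apply ENNReal.ofReal_le_ofReal
  rw [integral_div]
  rw [div_le_iff₀ (by positivity)]
  have hI : ∫ a in Ioc p q, en (tr (fun l => (b l : ℝ)) L a (F i)) ≤ NN i ^ (κ + μ - τ + 6 * ε) := by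
    refine (int_en_tr hn hD (fun l => (b l : ℝ)) L hG0 hb3 hpq).trans ?_
    have e1 : (q - p) * ((L : ℝ) * en (F i)) ≤ (q - p) * NN i ^ (κ + μ - τ + 5 * ε) := by
      refine mul_le_mul_of_nonneg_left ?_ (by linarith)
      refine (mul_le_mul hL2 hen (en_nonneg _) (NN_rpow_pos i _).le).trans ?_
      rw [← Real.rpow_add hNpos]
      apply NN_rpow_mono
      linarith
    have e2 : (L : ℝ) * (2 * hs L) * (NN i ^ (-τ + ε) * l1 (F i) / G) ≤
        2 * NN i ^ (κ + μ - τ + 5 * ε) := by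
      have e3 : NN i ^ (-τ + ε) * l1 (F i) / G ≤
          NN i ^ (-τ + ε) * NN i ^ (κ - τ + ε) / NN i ^ (1 - μ - ε) := by
        refine div_le_div₀ (mul_nonneg (NN_rpow_pos i _).le (NN_rpow_pos i _).le) ?_
          (NN_rpow_pos i _) hG1
        exact mul_le_mul_of_nonneg_left hl1 (NN_rpow_pos i _).le
      have e4 : (L : ℝ) * (2 * hs L) ≤ NN i ^ (μ + ε) * (2 * NN i ^ ε) := by
        refine mul_le_mul hL2 (by linarith) ?_ (NN_rpow_pos i _).le
        have := hs_nonneg L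
        positivity
      have e5 : 0 ≤ NN i ^ (-τ + ε) * l1 (F i) / G :=
        div_nonneg (mul_nonneg (NN_rpow_pos i _).le (l1_nonneg _)) hG0.le
      refine (mul_le_mul e4 e3 e5 (mul_nonneg (NN_rpow_pos i _).le
        (mul_nonneg (by norm_num) (NN_rpow_pos i _).le))).trans ?_
      rw [← Real.rpow_add hNpos, ← Real.rpow_sub hNpos]
      have e6 : NN i ^ (μ + ε) * (2 * NN i ^ ε) *
          NN i ^ (-τ + ε + (κ - τ + ε) - (1 - μ - ε)) =
          2 * NN i ^ (κ + 2 * μ - 2 * τ - 1 + 5 * ε) := by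
        have : NN i ^ (κ + 2 * μ - 2 * τ - 1 + 5 * ε) = NN i ^ (μ + ε) * NN i ^ ε *
            NN i ^ (-τ + ε + (κ - τ + ε) - (1 - μ - ε)) := by
          rw [← Real.rpow_add hNpos, ← Real.rpow_add hNpos]
          congr 1
          ring
        rw [this]
        ring
      rw [e6]
      refine mul_le_mul_of_nonneg_left ?_ (by norm_num)
      apply NN_rpow_mono
      linarith
    refine le_trans (add_le_add e1 e2) ?_
    rw [← add_mul]
    exact habs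
  refine hI.trans ?_
  have e7 : NN i ^ (μ - ε) * NN i ^ (-τ - 1 + κ - ε) ≤ (L : ℝ) * c i :=
    mul_le_mul hL1 hc (NN_rpow_pos i _).le hLpos.le
  have e8 : (NN i ^ (μ - ε) * NN i ^ (-τ - 1 + κ - ε)) ^ 2 ≤ ((L : ℝ) * c i) ^ 2 :=
    pow_le_pow_left₀ (mul_nonneg (NN_rpow_pos i _).le (NN_rpow_pos i _).le) e7 2
  refine le_trans ?_ (mul_le_mul_of_nonneg_left e8 (NN_rpow_pos i _).le)
  rw [← Real.rpow_add hNpos, ← Real.rpow_natCast, ← Real.rpow_mul hNpos.le, ← Real.rpow_add hNpos]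
  apply NN_rpow_mono
  push_cast
  linarith

end U131.OC
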