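import Pool.Agent.U131.OC.B
import Pool.Agent.N84.MD.A

open MeasureTheory Set Filter
open scoped ENNReal Topology

namespace U131.OC
open U131.MW

/-- exceptional sets of nearby coefficients -/
lemma robust {S : Set ℝ} (hS : ∀ σ ∈ S, 0 ≤ σ) {B : Set ℕ} {H u v a a' p w : ℝ}
    (hp : 0 < p) (ha' : p ≤ a') (hw0 : 0 ≤ w) (haa : |a - a'| ≤ w)
    (hH : 0 < H) (hw : w * (v / p) ≤ H / 4) :
    volume (Ex (add S a B) H u v) ≤ volume (Ex (add S a' B) (H / 2) (u - H / 4) v) := by
  have h1 : Ex (add S a B) H u v ⊆ (fun x => x + (-(H / 4))) ⁻¹'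
      Ex (add S a' B) (H / 2) (u - H / 4) v := by
    intro M hM
    obtain ⟨⟨hM1, hM2⟩, hM3⟩ := hM
    refine ⟨⟨by linarith, by linarith⟩, ?_⟩
    rintro ⟨x, ⟨σ, hσ, b, hb, rfl⟩, hx1, hx2⟩
    apply hM3
    have hσ0 := hS σ hσ
    have hb0 : (0 : ℝ) ≤ b := Nat.cast_nonneg b
    have hbv : (b : ℝ) ≤ v / p := by
      rw [le_div_iff₀ hp]
      have : (b : ℝ) * p ≤ a' * b := by
        rw [mul_comm]
        exact mul_le_mul_of_nonneg_right ha' hb0
      linarith
    have hd : |a * b - a' * b| ≤ H / 4 := by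
      rw [← sub_mul, abs_mul, abs_of_nonneg hb0]
      exact (mul_le_mul haa hbv hb0 hw0).trans hw
    rw [abs_le] at hd
    exact ⟨σ + a * b, ⟨σ, hσ, b, hb, rfl⟩, by linarith [hd.1], by linarith [hd.2]⟩
  refine (measure_mono h1).trans ?_
  rw [measure_preimage_add_right]

lemma cover {f : ℝ → ℝ≥0∞} {p q w : ℝ} (hw : 0 < w) {E : Set ℝ}
    (hE : E ⊆ Ioc p q) {T : ℝ} (hT : 0 ≤ T)
    (h : ∀ a ∈ E, ∀ a' ∈ Ioc p (q + w), |a - a'| ≤ w → ENNReal.ofReal T ≤ f a')
    {I : ℝ} (hI : 0 ≤ I) (hint : ∫⁻ a in Ioc p (q + w), f a ≤ ENNReal.ofReal I) :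
    ∃ F : Finset ℕ, (∀ a ∈ E, ∃ j ∈ F, a ∈ Ioc (p + j * w) (p + (j + 1) * w)) ∧
      (F.card : ℝ) * (T * w) ≤ I := by
  classical
  set J : ℕ := ⌈(q - p) / w⌉₊ with hJ
  set F : Finset ℕ := (Finset.range J).filter
    (fun j : ℕ => (E ∩ Ioc (p + j * w) (p + (j + 1) * w)).Nonempty) with hF
  refine ⟨F, ?_, ?_⟩
  · intro a ha
    obtain ⟨h1, h2⟩ := hE ha
    have hx0 : 0 < (a - p) / w := div_pos (by linarith) hw
    set m : ℕ := ⌈(a - p) / w⌉₊ with hm
    have hm0 : 0 < m := Nat.ceil_pos.2 hx0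
    have hm1 : (a - p) / w ≤ m := Nat.le_ceil _
    have hm2 : (m : ℝ) < (a - p) / w + 1 := Nat.ceil_lt_add_one hx0.le
    obtain ⟨j, hj⟩ : ∃ j, m = j + 1 := ⟨m - 1, by omega⟩
    have hmem : a ∈ Ioc (p + j * w) (p + (j + 1) * w) := by
      rw [hj] at hm1 hm2
      push_cast at hm1 hm2
      rw [div_le_iff₀ hw] at hm1
      have h3 : (j : ℝ) < (a - p) / w := by linarith
      rw [lt_div_iff₀ hw] at h3
      exact ⟨by linarith, by linarith⟩
    refine ⟨j, ?_, hmem⟩
    rw [hF, Finset.mem_filter, Finset.mem_range]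
    refine ⟨?_, ⟨a, ha, hmem⟩⟩
    have : ⌈(a - p) / w⌉₊ ≤ J := by
      apply Nat.ceil_mono
      exact div_le_div_of_nonneg_right (by linarith) hw.le
    omega
  · have hdisj : (↑F : Set ℕ).PairwiseDisjoint fun j : ℕ => Ioc (p + j * w) (p + (j + 1) * w) := by
      intro j _ j' _ hne
      rw [Function.onFun, Set.disjoint_left]
      intro x hx hx'
      apply hne
      have h1 : (j : ℝ) * w < (j' + 1) * w := by linarith [hx.1, hx'.2]
      have h2 : (j' : ℝ) * w < (j + 1) * w := by linarith [hx'.1, hx.2]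
      have h3 : (j : ℝ) < j' + 1 := lt_of_mul_lt_mul_right h1 hw.le
      have h4 : (j' : ℝ) < j + 1 := lt_of_mul_lt_mul_right h2 hw.le
      have h5 : j < j' + 1 := by exact_mod_cast h3
      have h6 : j' < j + 1 := by exact_mod_cast h4
      omega
    have hsub : (⋃ j ∈ F, Ioc (p + j * w) (p + (j + 1) * w)) ⊆ Ioc p (q + w) := by
      intro x hx
      rw [mem_iUnion₂] at hx
      obtain ⟨j, hj, hx1, hx2⟩ := hx
      rw [hF, Finset.mem_filter, Finset.mem_range] at hj
      have hj0 : 0 ≤ (j : ℝ) * w := by positivity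
      have hj1 : (j : ℝ) < (q - p) / w := by
        have := hj.1
        rw [hJ, Nat.lt_ceil] at this
        exact this
      rw [lt_div_iff₀ hw] at hj1
      exact ⟨by linarith, by linarith⟩
    have hsum : ∑ j ∈ F, ENNReal.ofReal (T * w) ≤ ENNReal.ofReal I := by
      calc ∑ j ∈ F, ENNReal.ofReal (T * w)
          ≤ ∑ j ∈ F, ∫⁻ a in Ioc (p + j * w) (p + (j + 1) * w), f a := by
            refine Finset.sum_le_sum fun j hj => ?_
            have hj' := hj
            rw [hF, Finset.mem_filter, Finset.mem_range] at hj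
            obtain ⟨-, a, haE, ha1, ha2⟩ := hj
            have h1 : ∀ a' ∈ Ioc (p + j * w) (p + (j + 1) * w), ENNReal.ofReal T ≤ f a' := by
              intro a' ha'
              refine h a haE a' (hsub (mem_iUnion₂.2 ⟨j, hj', ha'⟩)) ?_
              rw [abs_le]
              constructor <;> linarith [ha'.1, ha'.2]
            have h2 := setLIntegral_mono' (μ := volume) measurableSet_Ioc h1
            rw [setLIntegral_const, Real.volume_Ioc] at h2
            have h3 : p + (j + 1) * w - (p + j * w) = w := by ring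
            rw [h3, ← ENNReal.ofReal_mul hT] at h2
            exact h2
        _ = ∫⁻ a in ⋃ j ∈ F, Ioc (p + j * w) (p + (j + 1) * w), f a :=
            (lintegral_biUnion_finset hdisj (fun _ _ => measurableSet_Ioc) f).symm
        _ ≤ ∫⁻ a in Ioc p (q + w), f a := lintegral_mono_set hsub
        _ ≤ _ := hint
    rw [Finset.sum_const, nsmul_eq_mul, ← ENNReal.ofReal_natCast, ← ENNReal.ofReal_mul (by positivity),
      ENNReal.ofReal_le_ofReal_iff hI] at hsum
    exact hsum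

lemma ex_mono {S : Set ℝ} {H u u' v : ℝ} (h : u' ≤ u) : Ex S H u v ⊆ Ex S H u' v :=
  fun _ hM => ⟨⟨h.trans hM.1.1, hM.1.2⟩, hM.2⟩

/-- the coefficients with large exceptional sets at infinitely many scales -/
lemma dim_piece {κ μ : ℝ} (hκ0 : 0 < κ) (hκ1 : κ ≤ 1) (hμ0 : 0 < μ) (hμ1 : μ ≤ 1) {A B : Set ℕ}
    (hA : GapK κ A) (hB : GapK μ B) {τ h θ c : ℝ} (hτ : 0 ≤ τ) (hh0 : 0 < h) (hh1 : h ≤ 1)
    (hθ : θ ≤ 1) (hc : 0 < c) {p q hi : ℝ} (hp : 0 < p) (hpq : p ≤ q) (hhi : 1 ≤ hi) :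
    dimH {a | a ∈ Ioc p q ∧ ∃ᶠ i in atTop, ENNReal.ofReal (c * NN i ^ θ) ≤
      volume (Ex (add (pt A) a B) (h * NN i ^ (-τ)) ((4 + 2 * q) * NN i) (hi * NN i))} ≤
      ENNReal.ofReal ((3 - κ - μ + 2 * τ - θ) / (1 + τ)) := by
  classical
  have hhi0 : 0 < hi := by linarith
  have hτ1 : 0 < 1 + τ := by linarith
  refine ENNReal.le_of_forall_pos_le_add fun ε hε _ => ?_
  have hε' : (0 : ℝ) < ε := by exact_mod_cast hε
  set D0 : ℝ := (3 - κ - μ + 2 * τ - θ) / (1 + τ) with hD0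
  have hD00 : 0 ≤ D0 := div_nonneg (by linarith) hτ1.le
  have hD0e : D0 * (1 + τ) = 3 - κ - μ + 2 * τ - θ := by
    rw [hD0]
    field_simp
  have hgoal : ENNReal.ofReal D0 + (ε : ℝ≥0∞) = ENNReal.ofReal (D0 + ε) := by
    rw [ENNReal.ofReal_add hD00 hε'.le, ENNReal.ofReal_coe_nnreal]
  rw [hgoal]
  set D : ℝ := D0 + ε with hD
  have hDpos : 0 < D := by linarith
  set c2 : ℝ := h * p / (4 * hi) with hc2
  have hc20 : 0 < c2 := by positivity
  set w : ℕ → ℝ := fun i => c2 * NN i ^ (-1 - τ) with hw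
  have hw0 : ∀ i, 0 < w i := fun i => mul_pos hc20 (NN_rpow_pos i _)
  set η : ℝ := ε / 2 with hη
  have hη0 : 0 < η := by positivity
  have hmean := mean hκ0 hκ1 hμ0 hμ1 hA hB hτ (show 0 < h / 2 by linarith) (show h / 2 ≤ 1 by linarith)
    hp (show p ≤ q + 1 by linarith) hhi hη0
  let bad : ℕ → Set ℝ := fun i => {a | a ∈ Ioc p q ∧ ENNReal.ofReal (c * NN i ^ θ) ≤
      volume (Ex (add (pt A) a B) (h * NN i ^ (-τ)) ((4 + 2 * q) * NN i) (hi * NN i))}
  let P : ℕ → Finset ℕ → Prop := fun i F =>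
    (∀ a ∈ bad i, ∃ j ∈ F, a ∈ Ioc (p + j * w i) (p + (j + 1) * w i)) ∧
      (F.card : ℝ) * (c * NN i ^ θ * w i) ≤ NN i ^ (2 - κ - μ + τ + η)
  have hex : ∀ᶠ i in atTop, ∃ F : Finset ℕ, P i F := by
    filter_upwards [hmean, absorb' c2 (show -1 - τ < 0 by linarith)] with i h1 h2
    rw [Real.rpow_zero] at h2
    have hN0 := NN_pos i
    have hN1 := NN_one_le i
    have hNτ := NN_rpow_pos i (-τ)
    have hNτ1 : NN i ^ (-τ) ≤ 1 := Real.rpow_le_one_of_one_le_of_nonpos hN1 (by linarith)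
    have hHpos : 0 < h * NN i ^ (-τ) := mul_pos hh0 hNτ
    refine cover (hw0 i) (E := bad i) (fun a ha => ha.1) (by positivity) (f := fun a =>
      volume (Ex (add (pt A) a B) (h / 2 * NN i ^ (-τ)) ((1 + 2 * (q + 1)) * NN i) (hi * NN i)))
      ?_ (NN_rpow_pos i _).le ?_
    · intro a ha a' ha' haa
      refine ha.2.trans ?_
      have h3 := robust (S := pt A) (by rintro σ ⟨n, -, rfl⟩; exact Nat.cast_nonneg n) (B := B)
        (H := h * NN i ^ (-τ)) (u := (4 + 2 * q) * NN i) (v := hi * NN i) hp ha'.1.le (hw0 i).le haa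
        hHpos (by
          show c2 * NN i ^ (-1 - τ) * (hi * NN i / p) ≤ h * NN i ^ (-τ) / 4
          have e1 : NN i ^ (-τ) = NN i ^ (-1 - τ) * NN i := by
            rw [show -τ = (-1 - τ) + 1 by ring, Real.rpow_add hN0, Real.rpow_one]
          rw [e1, hc2]
          apply le_of_eq
          field_simp)
      refine h3.trans (measure_mono ?_)
      have e2 : h * NN i ^ (-τ) / 2 = h / 2 * NN i ^ (-τ) := by ring
      rw [e2]
      apply ex_mono
      have : h * NN i ^ (-τ) ≤ 1 := by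
        calc h * NN i ^ (-τ) ≤ 1 * 1 := mul_le_mul hh1 hNτ1 hNτ.le (by norm_num)
          _ = 1 := by norm_num
      linarith
    · refine le_trans (lintegral_mono_set ?_) h1
      exact Ioc_subset_Ioc_right (by
        have : w i ≤ 1 := h2
        linarith)
  let F : ℕ → Finset ℕ := fun i => if hi : ∃ F : Finset ℕ, P i F then hi.choose else ∅
  have hcore := Pool.Agent.N84.MD.core (X := ℝ) (ι := ℕ) (fun i j => Ioc (p + j * w i) (p + (j + 1) * w i))
    D hDpos F w (fun i => (hw0 i).le) (by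
      intro n j _
      rw [Real.ediam_Ioc]
      apply ENNReal.ofReal_le_ofReal
      linarith) (by
      have hr1 : (2 : ℝ) ^ (-η) < 1 := Real.rpow_lt_one_of_one_lt_of_neg (by norm_num) (by linarith)
      have hr0 : 0 ≤ (2 : ℝ) ^ (-η) := by positivity
      refine Summable.of_nonneg_of_le (fun n => mul_nonneg (Nat.cast_nonneg _)
        (Real.rpow_nonneg (hw0 n).le _)) (fun n => ?_)
        ((summable_geometric_of_lt_one hr0 hr1).mul_left (c2 ^ D / (c * c2)))
      by_cases hn : ∃ F : Finset ℕ, P n F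
      · have hFn : F n = hn.choose := dif_pos hn
        obtain ⟨-, hcard⟩ := hn.choose_spec
        rw [← hFn] at hcard
        have hN0 := NN_pos n
        have e1 : c * NN n ^ θ * w n = c * c2 * NN n ^ (θ - 1 - τ) := by
          show c * NN n ^ θ * (c2 * NN n ^ (-1 - τ)) = _
          rw [show θ - 1 - τ = θ + (-1 - τ) by ring, Real.rpow_add hN0]
          ring
        rw [e1] at hcard
        have hcard2 : ((F n).card : ℝ) ≤ NN n ^ (3 - κ - μ + 2 * τ - θ + η) / (c * c2) := by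
          rw [le_div_iff₀ (by positivity)]
          have h3 := mul_le_mul_of_nonneg_right hcard (NN_rpow_pos n (-(θ - 1 - τ))).le
          rw [← Real.rpow_add hN0] at h3
          have e2 : ((F n).card : ℝ) * (c * c2 * NN n ^ (θ - 1 - τ)) * NN n ^ (-(θ - 1 - τ)) =
              (F n).card * (c * c2) := by
            have : NN n ^ (θ - 1 - τ) * NN n ^ (-(θ - 1 - τ)) = 1 := by
              rw [← Real.rpow_add hN0]
              simp
            calc _ = (F n).card * (c * c2) * (NN n ^ (θ - 1 - τ) * NN n ^ (-(θ - 1 - τ))) := by ring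
              _ = _ := by rw [this, mul_one]
          rw [e2] at h3
          refine h3.trans (le_of_eq ?_)
          congr 1
          ring
        have e3 : w n ^ D = c2 ^ D * NN n ^ ((-1 - τ) * D) := by
          show (c2 * NN n ^ (-1 - τ)) ^ D = _
          rw [Real.mul_rpow hc20.le (NN_rpow_pos n _).le, ← Real.rpow_mul hN0.le]
        have h4 : ((F n).card : ℝ) * w n ^ D ≤
            NN n ^ (3 - κ - μ + 2 * τ - θ + η) / (c * c2) * (c2 ^ D * NN n ^ ((-1 - τ) * D)) := by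
          rw [e3]
          exact mul_le_mul_of_nonneg_right hcard2 (mul_nonneg (by positivity) (NN_rpow_pos n _).le)
        refine h4.trans ?_
        have e4 : NN n ^ (3 - κ - μ + 2 * τ - θ + η) / (c * c2) * (c2 ^ D * NN n ^ ((-1 - τ) * D)) =
            c2 ^ D / (c * c2) * NN n ^ (3 - κ - μ + 2 * τ - θ + η + (-1 - τ) * D) := by
          rw [Real.rpow_add hN0 (3 - κ - μ + 2 * τ - θ + η) ((-1 - τ) * D)]
          ring
        rw [e4, ← NN_rpow n (-η)]
        refine mul_le_mul_of_nonneg_left ?_ (by positivity)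
        apply NN_rpow_mono
        rw [hD]
        nlinarith [mul_nonneg hτ hε'.le]
      · have hFn : F n = ∅ := dif_neg hn
        rw [hFn]
        simp only [Finset.card_empty, Nat.cast_zero, zero_mul]
        positivity)
  refine le_trans (dimH_mono ?_) hcore
  rintro a ⟨ha1, ha2⟩
  show ∃ᶠ n in atTop, ∃ j ∈ F n, a ∈ Ioc (p + j * w n) (p + (j + 1) * w n)
  refine (ha2.and_eventually hex).mono ?_
  rintro n ⟨h1, h2⟩
  have hFn : F n = h2.choose := dif_pos h2
  rw [hFn]
  exact h2.choose_spec.1 a ⟨ha1, h1⟩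

end U131.OC
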