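import Pool.Agent.U131.OC.A
import Pool.Agent.U131.MW.J

open MeasureTheory Set Filter
open scoped ENNReal Topology

namespace U131.OC
open U131.MW

/-- sums of `s` powers with exponent `k` -/
def powSum (k s : ℕ) : Set ℕ := {n | ∃ x : Fin s → ℕ, n = ∑ i, x i ^ k}

lemma gap_step {k : ℕ} (hk : 1 ≤ k) {κ : ℝ} (hκ0 : 0 ≤ κ) (hκ1 : κ ≤ 1) {A : Set ℕ}
    (hA : GapK κ A) : GapK (1 - (1 - 1 / (k : ℝ)) * (1 - κ)) {n | ∃ x : ℕ, ∃ a ∈ A, n = x ^ k + a} := by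
  obtain ⟨C, hC1, hC⟩ := gap_pos hA
  have hk1 : (1 : ℝ) ≤ k := by exact_mod_cast hk
  have hk0 : (k : ℝ) ≠ 0 := by positivity
  have hkinv : 1 / (k : ℝ) ≤ 1 := by
    rw [div_le_one (by positivity)]
    exact hk1
  refine ⟨1 + C * k, fun y hy => ?_⟩
  set Y : ℝ := y ^ (1 / (k : ℝ)) with hY
  have hy0 : 0 < y := by linarith
  have hY1 : 1 ≤ Y := Real.one_le_rpow hy (by positivity)
  have hY0 : 0 < Y := by linarith
  have hYk : Y ^ k = y := by
    rw [hY, ← Real.rpow_natCast, ← Real.rpow_mul hy0.le]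
    rw [one_div, inv_mul_cancel₀ hk0, Real.rpow_one]
  set x : ℕ := ⌊Y⌋₊ with hx
  have hx1 : (x : ℝ) ≤ Y := Nat.floor_le hY0.le
  have hx2 : Y < x + 1 := Nat.lt_floor_add_one _
  have hxk : (x : ℝ) ^ k ≤ y := by
    rw [← hYk]
    exact pow_le_pow_left₀ (by positivity) hx1 k
  set D : ℝ := y ^ (1 - 1 / (k : ℝ)) with hD
  have hYD : Y * D = y := by
    rw [hY, hD, ← Real.rpow_add hy0]
    simp
  have hr : y - (x : ℝ) ^ k ≤ k * D := by
    have h1 : 1 + (k : ℝ) * ((x : ℝ) / Y - 1) ≤ (1 + ((x : ℝ) / Y - 1)) ^ k := by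
      apply one_add_mul_le_pow
      have : 0 ≤ (x : ℝ) / Y := by positivity
      linarith
    have h2 : (1 + ((x : ℝ) / Y - 1)) ^ k * y = (x : ℝ) ^ k := by
      rw [← hYk, ← mul_pow]
      congr 1
      field_simp
      ring
    have h3 := mul_le_mul_of_nonneg_right h1 hy0.le
    rw [h2] at h3
    have h4 : (1 + (k : ℝ) * ((x : ℝ) / Y - 1)) * y = y - k * D * (Y - x) := by
      rw [← hYD]
      field_simp
      ring
    rw [h4] at h3
    have hD0 : 0 ≤ k * D := by positivity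
    have h5 : k * D * (Y - x) ≤ k * D * 1 := mul_le_mul_of_nonneg_left (by linarith) hD0
    linarith
  have hDone : 1 ≤ D := Real.one_le_rpow hy (by linarith)
  set r : ℝ := max (y - (x : ℝ) ^ k) 1 with hrdef
  have hr1 : 1 ≤ r := le_max_right _ _
  have hrle : r ≤ k * D := max_le hr (by nlinarith)
  have hry : (x : ℝ) ^ k + r ≤ y + 1 := by
    rcases le_total (y - (x : ℝ) ^ k) 1 with h | h
    · rw [hrdef, max_eq_right h]; linarith
    · rw [hrdef, max_eq_left h]; linarith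
  obtain ⟨a, ha, h1, h2⟩ := hC r hr1
  refine ⟨x ^ k + a, ⟨x, a, ha, rfl⟩, ?_, ?_⟩
  · push_cast
    have := le_max_left (y - (x : ℝ) ^ k) 1
    rw [← hrdef] at this
    linarith
  · push_cast
    have e1 : r ^ (1 - κ) ≤ (k * D) ^ (1 - κ) := Real.rpow_le_rpow (by linarith) hrle (by linarith)
    have e2 : (k * D) ^ (1 - κ) = (k : ℝ) ^ (1 - κ) * D ^ (1 - κ) := Real.mul_rpow (by positivity) (by positivity)
    have e3 : D ^ (1 - κ) = y ^ ((1 - 1 / (k : ℝ)) * (1 - κ)) := by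
      rw [hD, ← Real.rpow_mul hy0.le]
    set E : ℝ := (1 - 1 / (k : ℝ)) * (1 - κ) with hE
    have hE0 : 0 ≤ E := mul_nonneg (by linarith) (by linarith)
    have e4 : (k : ℝ) ^ (1 - κ) ≤ k := by
      calc (k : ℝ) ^ (1 - κ) ≤ (k : ℝ) ^ (1 : ℝ) := Real.rpow_le_rpow_of_exponent_le hk1 (by linarith)
        _ = k := Real.rpow_one _
    have hyE : 1 ≤ y ^ E := Real.one_le_rpow hy hE0
    have e5 : r ^ (1 - κ) ≤ k * y ^ E := by
      rw [e2, e3] at e1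
      exact e1.trans (mul_le_mul_of_nonneg_right e4 (by positivity))
    have e6 := mul_le_mul_of_nonneg_left e5 (show 0 ≤ C by linarith)
    have e7 : 1 - (1 - E) = E := by ring
    rw [e7]
    nlinarith

lemma powSum_succ {k s : ℕ} :
    powSum k (s + 1) = {n | ∃ x : ℕ, ∃ a ∈ powSum k s, n = x ^ k + a} := by
  ext n
  simp only [powSum, mem_setOf_eq]
  constructor
  · rintro ⟨x, rfl⟩
    exact ⟨x 0, _, ⟨fun i => x i.succ, rfl⟩, Fin.sum_univ_succ _⟩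
  · rintro ⟨x, a, ⟨z, rfl⟩, rfl⟩
    refine ⟨Fin.cons x z, ?_⟩
    rw [Fin.sum_univ_succ]
    simp

lemma gap_powSum {k : ℕ} (hk : 1 ≤ k) (s : ℕ) :
    GapK (1 - (1 - 1 / (k : ℝ)) ^ (s + 1)) (powSum k (s + 1)) := by
  have hkinv : 1 / (k : ℝ) ≤ 1 := kinv_le hk
  have hkpos : 0 < 1 / (k : ℝ) := kinv_pos hk
  induction s with
  | zero =>
    obtain ⟨C, hC⟩ := gap_powers hk
    refine ⟨C, fun y hy => ?_⟩
    obtain ⟨a, ⟨x, rfl⟩, h1, h2⟩ := hC y hy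
    refine ⟨x ^ k, ⟨fun _ => x, by simp⟩, h1, ?_⟩
    have e : (1 : ℝ) - (1 - (1 - 1 / (k : ℝ)) ^ (0 + 1)) = 1 - 1 / (k : ℝ) := by ring
    rw [e]
    exact h2
  | succ s ih =>
    have h0 : 0 ≤ (1 - 1 / (k : ℝ)) ^ (s + 1) := pow_nonneg (by linarith) _
    have h1 : (1 - 1 / (k : ℝ)) ^ (s + 1) ≤ 1 := pow_le_one₀ (by linarith) (by linarith)
    have h2 := gap_step hk (κ := 1 - (1 - 1 / (k : ℝ)) ^ (s + 1)) (by linarith) (by linarith) ih
    rw [← powSum_succ] at h2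
    have e : 1 - (1 - 1 / (k : ℝ)) * (1 - (1 - (1 - 1 / (k : ℝ)) ^ (s + 1))) =
        1 - (1 - 1 / (k : ℝ)) ^ (s + 1 + 1) := by ring
    rwa [e] at h2

end U131.OC
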