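import Pool.Agent.U131.OC.C
import Pool.Agent.U131.OC.P

open MeasureTheory Set Filter
open scoped ENNReal Topology

namespace U131.OC
open U131.MW

/-- two sets with small exceptional sets -/
lemma pig {S S' : Set ℝ} (hS' : S'.Countable) {H u v M : ℝ} (hM : 0 ≤ M)
    (hu : u ≤ M / 3) (hv : 2 * M / 3 ≤ v)
    (h : volume (Ex S H u v) + volume (Ex S' H u v) < ENNReal.ofReal (M / 3)) :
    ∃ σ ∈ S, ∃ σ' ∈ S', M - 2 * H < σ + σ' ∧ σ + σ' ≤ M := by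
  by_contra hcon
  push Not at hcon
  have hsub : Icc (M / 3) (2 * M / 3) ⊆ Ex S H u v ∪ (fun z => M - z) ⁻¹' Ex S' H u v := by
    intro z hz
    by_cases h1 : Hit S H z
    · right
      refine ⟨⟨by linarith [hz.2], by linarith [hz.1]⟩, ?_⟩
      rintro ⟨σ', hσ', h2, h3⟩
      obtain ⟨σ, hσ, h4, h5⟩ := h1
      have := hcon σ hσ σ' hσ' (by linarith)
      linarith
    · left
      exact ⟨⟨hu.trans hz.1, hz.2.trans hv⟩, h1⟩
  have h2 := (measure_mono (μ := volume) hsub).trans (measure_union_le _ _)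
  have h4 : volume ((fun z => M - z) ⁻¹' Ex S' H u v) = volume (Ex S' H u v) :=
    (Measure.measurePreserving_sub_left volume M).measure_preimage
      (meas_ex hS' H u v).nullMeasurableSet
  rw [h4, Real.volume_Icc] at h2
  have h3 : 2 * M / 3 - M / 3 = M / 3 := by ring
  rw [h3] at h2
  exact absurd h2 (not_le.2 h)

/-- dyadic scale of a real number -/
lemma scale {lo : ℝ} (hlo : 1 ≤ lo) {P : ℕ → Prop} (hP : ∀ᶠ i in atTop, P i) :
    ∀ᶠ M : ℝ in atTop, 0 ≤ M ∧ ∃ i, P i ∧ lo * NN i ≤ M / 3 ∧ M ≤ 6 * lo * NN i := by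
  obtain ⟨i0, hi0⟩ := eventually_atTop.1 hP
  filter_upwards [eventually_ge_atTop (3 * lo * 2 ^ i0), eventually_ge_atTop (3 * lo)] with M h1 h2
  have h3 : 1 ≤ M / (3 * lo) := by
    rw [le_div_iff₀ (by positivity)]
    linarith
  obtain ⟨i, h4, h5⟩ := exists_nat_pow_near h3 (show (1 : ℝ) < 2 by norm_num)
  rw [le_div_iff₀ (by positivity)] at h4
  rw [div_lt_iff₀ (by positivity)] at h5
  refine ⟨by nlinarith, i, hi0 i ?_, ?_, ?_⟩
  · by_contra hlt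
    push Not at hlt
    have h6 : (2 : ℝ) ^ (i + 1) ≤ 2 ^ i0 := pow_le_pow_right₀ (by norm_num) hlt
    have h7 : (2 : ℝ) ^ (i + 1) * (3 * lo) ≤ 2 ^ i0 * (3 * lo) :=
      mul_le_mul_of_nonneg_right h6 (by positivity)
    linarith
  · unfold NN
    linarith
  · unfold NN
    rw [pow_succ] at h5
    linarith

/-- the set of coefficients with large exceptional sets at infinitely many scales -/
def Bad (A B : Set ℕ) (h τ θ c lo hi p q : ℝ) : Set ℝ :=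
  {a | a ∈ Ioc p q ∧ ∃ᶠ i in atTop, ENNReal.ofReal (c * NN i ^ θ) ≤
      volume (Ex (add (pt A) a B) (h * NN i ^ (-τ)) (lo * NN i) (hi * NN i))}

lemma good_all {A B : Set ℕ} {h τ p q : ℝ} (hq : 0 ≤ q) {a : ℝ} (ha : a ∈ Ioc p q)
    (hb : a ∉ Bad A B h τ 1 ((4 + 2 * q) / 2) (4 + 2 * q) (4 * (4 + 2 * q)) p q) :
    ∀ᶠ M : ℝ in atTop, 0 ≤ M ∧ ∃ i, NN i ≤ M ∧ M ≤ 6 * (4 + 2 * q) * NN i ∧
      ∃ σ ∈ add (pt A) a B, ∃ σ' ∈ add (pt A) a B,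
        M - 2 * (h * NN i ^ (-τ)) < σ + σ' ∧ σ + σ' ≤ M := by
  set lo : ℝ := 4 + 2 * q with hlo
  have hlo1 : 1 ≤ lo := by linarith
  have hP : ∀ᶠ i in atTop, volume (Ex (add (pt A) a B) (h * NN i ^ (-τ)) (lo * NN i) (4 * lo * NN i)) <
      ENNReal.ofReal (lo / 2 * NN i ^ (1 : ℝ)) := by
    by_contra hcon
    apply hb
    refine ⟨ha, ?_⟩
    rw [Filter.not_eventually] at hcon
    exact hcon.mono fun i hi => not_lt.1 hi
  filter_upwards [scale hlo1 hP] with M hM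
  obtain ⟨hM0, i, h1, h2, h3⟩ := hM
  refine ⟨hM0, i, ?_, h3, ?_⟩
  · have := NN_pos i
    nlinarith
  · refine pig (add_countable (pt_countable A) a B) hM0 h2 (by linarith) (lt_of_lt_of_le
      (ENNReal.add_lt_add h1 h1) ?_)
    rw [← ENNReal.ofReal_add (by have := NN_pos i; positivity) (by have := NN_pos i; positivity)]
    apply ENNReal.ofReal_le_ofReal
    rw [Real.rpow_one]
    linarith

/-- union over bounded sets of coefficients -/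
lemma dim_union {P : ℝ → Prop} {D : ℝ≥0∞} (h : ∀ p q : ℝ, 0 < p → p ≤ q →
    dimH {a | a ∈ Ioc p q ∧ ¬ P a} ≤ D) : dimH {a : ℝ | 0 < a ∧ ¬ P a} ≤ D := by
  have hsub : {a : ℝ | 0 < a ∧ ¬ P a} ⊆ ⋃ m : ℕ, {a | a ∈ Ioc (1 / ((m : ℝ) + 1)) (m + 1) ∧ ¬ P a} := by
    rintro a ⟨ha0, ha⟩
    obtain ⟨m, hm⟩ := exists_nat_ge (max a (1 / a))
    have h1 := (le_max_left a (1 / a)).trans hm
    have h2 := (le_max_right a (1 / a)).trans hm
    refine mem_iUnion.2 ⟨m, ⟨?_, by linarith⟩, ha⟩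
    rw [div_lt_iff₀ (by positivity)]
    rw [div_le_iff₀ ha0] at h2
    nlinarith
  refine (dimH_mono hsub).trans ?_
  rw [dimH_iUnion]
  refine iSup_le fun m => h _ _ (by positivity) ?_
  rw [div_le_iff₀ (by positivity)]
  have : (0 : ℝ) ≤ m := Nat.cast_nonneg m
  nlinarith

lemma powSum_add {k s t : ℕ} {a b : ℕ} (ha : a ∈ powSum k s) (hb : b ∈ powSum k t) :
    a + b ∈ powSum k (s + t) := by
  obtain ⟨x, rfl⟩ := ha
  obtain ⟨y, rfl⟩ := hb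
  refine ⟨Fin.append x y, ?_⟩
  rw [Fin.sum_univ_add]
  simp

/-- (1) every large integer -/
theorem all_floor {k : ℕ} (hk : 1 ≤ k) (s t : ℕ) :
    dimH {a : ℝ | 0 < a ∧ ¬ ∀ᶠ n : ℕ in atTop, ∃ x : Fin (2 * (s + 1)) → ℕ, ∃ y : Fin (2 * (t + 1)) → ℕ,
      (n : ℤ) = ∑ i, (x i : ℤ) ^ k + ⌊a * ∑ j, (y j : ℝ) ^ k⌋} ≤
      ENNReal.ofReal ((1 - 1 / (k : ℝ)) ^ (s + 1) + (1 - 1 / (k : ℝ)) ^ (t + 1)) := by
  have hkinv : 1 / (k : ℝ) ≤ 1 := kinv_le hk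
  have hkpos : 0 < 1 / (k : ℝ) := kinv_pos hk
  have hb : ∀ s : ℕ, 0 ≤ (1 - 1 / (k : ℝ)) ^ (s + 1) ∧ (1 - 1 / (k : ℝ)) ^ (s + 1) < 1 := fun s =>
    ⟨pow_nonneg (by linarith) _, pow_lt_one₀ (by linarith) (by linarith) (by omega)⟩
  apply dim_union
  intro p q hp hpq
  have h1 := dim_piece (κ := 1 - (1 - 1 / (k : ℝ)) ^ (s + 1)) (μ := 1 - (1 - 1 / (k : ℝ)) ^ (t + 1))
    (by linarith [(hb s).2]) (by linarith [(hb s).1]) (by linarith [(hb t).2]) (by linarith [(hb t).1])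
    (gap_powSum hk s) (gap_powSum hk t) (τ := 0) (h := 1 / 4) (θ := 1) (c := (4 + 2 * q) / 2) le_rfl
    (by norm_num) (by norm_num) le_rfl (by linarith) (hi := 4 * (4 + 2 * q)) hp hpq (by linarith)
  have e : (3 - (1 - (1 - 1 / (k : ℝ)) ^ (s + 1)) - (1 - (1 - 1 / (k : ℝ)) ^ (t + 1)) + 2 * 0 - 1) / (1 + 0) =
      (1 - 1 / (k : ℝ)) ^ (s + 1) + (1 - 1 / (k : ℝ)) ^ (t + 1) := by ring
  rw [e] at h1
  refine (dimH_mono ?_).trans h1
  rintro a ⟨ha, ha2⟩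
  by_contra hcon
  apply ha2
  have h2 := good_all (by linarith) ha hcon
  have h3 : Tendsto (fun n : ℕ => (n : ℝ) + 3 / 4) atTop atTop :=
    tendsto_atTop_add_const_right _ _ tendsto_natCast_atTop_atTop
  filter_upwards [h3.eventually h2] with n hn
  obtain ⟨-, i, -, -, σ, ⟨_, ⟨a1, ha1, rfl⟩, b1, hb1, rfl⟩, σ', ⟨_, ⟨a2, ha2', rfl⟩, b2, hb2, rfl⟩, h4, h5⟩ := hn
  obtain ⟨x, hx⟩ := powSum_add ha1 ha2'
  obtain ⟨y, hy⟩ := powSum_add hb1 hb2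
  rw [neg_zero, Real.rpow_zero] at h4
  have es : s + 1 + (s + 1) = 2 * (s + 1) := by ring
  have et : t + 1 + (t + 1) = 2 * (t + 1) := by ring
  refine ⟨x ∘ Fin.cast es.symm, y ∘ Fin.cast et.symm, ?_⟩
  have hx' : ∑ i, (((x ∘ Fin.cast es.symm) i : ℕ) : ℤ) ^ k = ((a1 + a2 : ℕ) : ℤ) := by
    rw [hx]
    push_cast
    exact (finCongr es.symm).sum_comp (fun i => ((x i : ℕ) : ℤ) ^ k)
  have hy' : ∑ i, (((y ∘ Fin.cast et.symm) i : ℕ) : ℝ) ^ k = ((b1 + b2 : ℕ) : ℝ) := by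
    rw [hy]
    push_cast
    exact (finCongr et.symm).sum_comp (fun i => ((y i : ℕ) : ℝ) ^ k)
  rw [hx', hy']
  have h6 : ⌊a * ((b1 + b2 : ℕ) : ℝ)⌋ = (n : ℤ) - ((a1 + a2 : ℕ) : ℤ) := by
    rw [Int.floor_eq_iff]
    push_cast
    constructor <;> linarith
  rw [h6]
  ring

end U131.OC
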