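import Pool.Agent.U131.OC.D

open MeasureTheory Set Filter
open scoped ENNReal Topology

namespace U131.OC
open U131.MW

lemma kbounds {k : ℕ} (hk : 1 ≤ k) (s : ℕ) :
    0 ≤ (1 - 1 / (k : ℝ)) ^ (s + 1) ∧ (1 - 1 / (k : ℝ)) ^ (s + 1) < 1 := by
  have hkinv : 1 / (k : ℝ) ≤ 1 := kinv_le hk
  have hkpos : 0 < 1 / (k : ℝ) := kinv_pos hk
  exact ⟨pow_nonneg (by linarith) _, pow_lt_one₀ (by linarith) (by linarith) (by omega)⟩

/-- real targets -/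
theorem all_real {k : ℕ} (hk : 1 ≤ k) (s t : ℕ) {τ : ℝ} (hτ : 0 ≤ τ) :
    dimH {a : ℝ | 0 < a ∧ ¬ ∀ᶠ M : ℝ in atTop, ∃ x : Fin (2 * (s + 1)) → ℕ, ∃ y : Fin (2 * (t + 1)) → ℕ,
      |∑ i, (x i : ℝ) ^ k + a * ∑ j, (y j : ℝ) ^ k - M| < M ^ (-τ)} ≤
      ENNReal.ofReal (((1 - 1 / (k : ℝ)) ^ (s + 1) + (1 - 1 / (k : ℝ)) ^ (t + 1) + 2 * τ) / (1 + τ)) := by
  have hb := kbounds hk
  apply dim_union
  intro p q hp hpq
  have hlo : (1 : ℝ) ≤ 6 * (4 + 2 * q) := by linarith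
  set h : ℝ := (6 * (4 + 2 * q)) ^ (-τ) / 4 with hh
  have hh0 : 0 < h := by positivity
  have hh1 : h ≤ 1 := by
    have : (6 * (4 + 2 * q)) ^ (-τ) ≤ 1 := Real.rpow_le_one_of_one_le_of_nonpos hlo (by linarith)
    linarith
  have h1 := dim_piece (κ := 1 - (1 - 1 / (k : ℝ)) ^ (s + 1)) (μ := 1 - (1 - 1 / (k : ℝ)) ^ (t + 1))
    (by linarith [(hb s).2]) (by linarith [(hb s).1]) (by linarith [(hb t).2]) (by linarith [(hb t).1])
    (gap_powSum hk s) (gap_powSum hk t) (τ := τ) (h := h) (θ := 1) (c := (4 + 2 * q) / 2) hτ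
    hh0 hh1 le_rfl (by linarith) (hi := 4 * (4 + 2 * q)) hp hpq (by linarith)
  have e : (3 - (1 - (1 - 1 / (k : ℝ)) ^ (s + 1)) - (1 - (1 - 1 / (k : ℝ)) ^ (t + 1)) + 2 * τ - 1) / (1 + τ) =
      ((1 - 1 / (k : ℝ)) ^ (s + 1) + (1 - 1 / (k : ℝ)) ^ (t + 1) + 2 * τ) / (1 + τ) := by
    congr 1
    ring
  rw [e] at h1
  refine (dimH_mono ?_).trans h1
  rintro a ⟨ha, ha2⟩
  by_contra hcon
  apply ha2
  have h2 := good_all (by linarith) ha hcon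
  filter_upwards [h2, eventually_gt_atTop 0] with M hn hMpos
  obtain ⟨-, i, -, hMi, σ, ⟨_, ⟨a1, ha1, rfl⟩, b1, hb1, rfl⟩, σ', ⟨_, ⟨a2, ha2', rfl⟩, b2, hb2, rfl⟩, h4, h5⟩ := hn
  obtain ⟨x, hx⟩ := powSum_add ha1 ha2'
  obtain ⟨y, hy⟩ := powSum_add hb1 hb2
  have es : s + 1 + (s + 1) = 2 * (s + 1) := by ring
  have et : t + 1 + (t + 1) = 2 * (t + 1) := by ring
  refine ⟨x ∘ Fin.cast es.symm, y ∘ Fin.cast et.symm, ?_⟩
  have hx' : ∑ i, (((x ∘ Fin.cast es.symm) i : ℕ) : ℝ) ^ k = ((a1 + a2 : ℕ) : ℝ) := by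
    rw [hx]
    push_cast
    exact (finCongr es.symm).sum_comp (fun i => ((x i : ℕ) : ℝ) ^ k)
  have hy' : ∑ i, (((y ∘ Fin.cast et.symm) i : ℕ) : ℝ) ^ k = ((b1 + b2 : ℕ) : ℝ) := by
    rw [hy]
    push_cast
    exact (finCongr et.symm).sum_comp (fun i => ((y i : ℕ) : ℝ) ^ k)
  rw [hx', hy']
  have h6 : 2 * (h * NN i ^ (-τ)) < M ^ (-τ) := by
    have h7 : (6 * (4 + 2 * q) * NN i) ^ (-τ) ≤ M ^ (-τ) :=
      Real.rpow_le_rpow_of_nonpos hMpos hMi (by linarith)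
    rw [Real.mul_rpow (by linarith) (NN_pos i).le] at h7
    have h8 : 0 < (6 * (4 + 2 * q)) ^ (-τ) * NN i ^ (-τ) := mul_pos (by positivity) (NN_rpow_pos i _)
    have h9 : 2 * (h * NN i ^ (-τ)) = (6 * (4 + 2 * q)) ^ (-τ) * NN i ^ (-τ) / 2 := by
      rw [hh]
      ring
    linarith
  push_cast
  rw [abs_lt]
  constructor <;> linarith

lemma count_le {E : Set ℝ} (T : Finset ℕ) (h : ∀ n ∈ T, Ico ((n : ℝ) + 1 / 2) (n + 1) ⊆ E)
    {V : ℝ} (hV : 0 ≤ V) (hE : volume E ≤ ENNReal.ofReal V) : (T.card : ℝ) ≤ 2 * V := by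
  have hdisj : (↑T : Set ℕ).PairwiseDisjoint fun n : ℕ => Ico ((n : ℝ) + 1 / 2) (n + 1) := by
    intro j _ j' _ hne
    rw [Function.onFun, Set.disjoint_left]
    intro x hx hx'
    apply hne
    have h3 : (j : ℝ) < j' + 1 := by linarith [hx.1, hx'.2]
    have h4 : (j' : ℝ) < j + 1 := by linarith [hx'.1, hx.2]
    have h5 : j < j' + 1 := by exact_mod_cast h3
    have h6 : j' < j + 1 := by exact_mod_cast h4
    omega
  have h1 : volume (⋃ n ∈ T, Ico ((n : ℝ) + 1 / 2) (n + 1)) ≤ ENNReal.ofReal V :=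
    (measure_mono (iUnion₂_subset h)).trans hE
  rw [measure_biUnion_finset hdisj (fun _ _ => measurableSet_Ico)] at h1
  have h2 : ∀ n ∈ T, volume (Ico ((n : ℝ) + 1 / 2) (n + 1)) = ENNReal.ofReal (1 / 2) := by
    intro n _
    rw [Real.volume_Ico]
    congr 1
    ring
  rw [Finset.sum_congr rfl h2, Finset.sum_const, nsmul_eq_mul, ← ENNReal.ofReal_natCast,
    ← ENNReal.ofReal_mul (by positivity), ENNReal.ofReal_le_ofReal_iff hV] at h1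
  linarith

/-- not of the form `⌊x + a y⌋`, `x ∈ A`, `y ∈ B` -/
def Miss (A B : Set ℕ) (a : ℝ) : Set ℕ := {n | ¬ ∃ x ∈ A, ∃ y ∈ B, ⌊(x : ℝ) + a * y⌋ = (n : ℤ)}

lemma miss_count {A B : Set ℕ} {θ p q : ℝ} (hq : 0 ≤ q) (hθ : 0 < θ) {a : ℝ} (ha : a ∈ Ioc p q)
    (hb : a ∉ Bad A B (1 / 2) 0 θ ((2 ^ θ - 1) / (4 * 2 ^ θ)) (4 + 2 * q) (2 * (4 + 2 * q) + 1) p q) :
    ∀ᶠ N : ℕ in atTop, ({n | n ≤ N ∧ n ∈ Miss A B a}.ncard : ℝ) ≤ (N : ℝ) ^ θ := by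
  classical
  set lo : ℝ := 4 + 2 * q with hlo
  have hlo1 : 1 ≤ lo := by linarith
  set c : ℝ := (2 ^ θ - 1) / (4 * 2 ^ θ) with hc
  have h2θ : 1 < (2 : ℝ) ^ θ := Real.one_lt_rpow (by norm_num) hθ
  have hc0 : 0 < c := div_pos (by linarith) (by linarith)
  have hP : ∀ᶠ i in atTop, volume (Ex (add (pt A) a B) (1 / 2 * NN i ^ (-(0:ℝ))) (lo * NN i)
      ((2 * lo + 1) * NN i)) ≤ ENNReal.ofReal (c * NN i ^ θ) := by
    by_contra hcon
    apply hb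
    refine ⟨ha, ?_⟩
    rw [Filter.not_eventually] at hcon
    exact hcon.mono fun i hi => (not_le.1 hi).le
  obtain ⟨i0, hi0⟩ := eventually_atTop.1 hP
  have hfin : ∀ X : ℝ, {n : ℕ | (n : ℝ) < X ∧ n ∈ Miss A B a}.Finite := by
    intro X
    refine (Set.finite_Iio (⌈X⌉₊)).subset ?_
    rintro n ⟨h1, -⟩
    exact Nat.lt_ceil.2 h1
  let g : ℕ → ℝ := fun i => ({n : ℕ | (n : ℝ) < lo * NN i ∧ n ∈ Miss A B a}.ncard : ℝ)
  have hstep : ∀ i, i0 ≤ i → g (i + 1) ≤ g i + 2 * (c * NN i ^ θ) := by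
    intro i hi
    have hfin2 : {n : ℕ | lo * NN i ≤ (n : ℝ) ∧ (n : ℝ) < lo * NN (i + 1) ∧ n ∈ Miss A B a}.Finite :=
      (hfin (lo * NN (i + 1))).subset fun n hn => ⟨hn.2.1, hn.2.2⟩
    have hsub : {n : ℕ | (n : ℝ) < lo * NN (i + 1) ∧ n ∈ Miss A B a} ⊆
        {n : ℕ | (n : ℝ) < lo * NN i ∧ n ∈ Miss A B a} ∪
        {n : ℕ | lo * NN i ≤ (n : ℝ) ∧ (n : ℝ) < lo * NN (i + 1) ∧ n ∈ Miss A B a} := by
      rintro n ⟨h1, h2⟩
      by_cases h3 : (n : ℝ) < lo * NN i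
      · exact Or.inl ⟨h3, h2⟩
      · exact Or.inr ⟨not_lt.1 h3, h1, h2⟩
    have h1 := (Set.ncard_le_ncard hsub ((hfin _).union hfin2)).trans (Set.ncard_union_le _ _)
    have h2 : ((hfin2.toFinset).card : ℝ) ≤ 2 * (c * NN i ^ θ) := by
      refine count_le hfin2.toFinset ?_ (mul_nonneg hc0.le (NN_rpow_pos i _).le) (hi0 i hi)
      intro n hn M hM
      rw [Set.Finite.mem_toFinset] at hn
      obtain ⟨h3, h4, h5⟩ := hn
      have hN1 := NN_one_le i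
      have e2 : NN (i + 1) = 2 * NN i := by
        unfold NN
        ring
      rw [e2] at h4
      refine ⟨⟨by linarith [hM.1], by linarith [hM.2]⟩, ?_⟩
      rintro ⟨_, ⟨_, ⟨x, hx, rfl⟩, y, hy, rfl⟩, h6, h7⟩
      apply h5
      refine ⟨x, hx, y, hy, ?_⟩
      rw [neg_zero, Real.rpow_zero] at h6
      rw [Int.floor_eq_iff]
      push_cast
      constructor <;> linarith [hM.1, hM.2]
    rw [← Set.ncard_eq_toFinset_card _ hfin2] at h2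
    have h3 : g (i + 1) ≤ g i + ({n : ℕ | lo * NN i ≤ (n : ℝ) ∧ (n : ℝ) < lo * NN (i + 1) ∧
        n ∈ Miss A B a}.ncard : ℝ) := by
      show (({n : ℕ | (n : ℝ) < lo * NN (i + 1) ∧ n ∈ Miss A B a}.ncard : ℕ) : ℝ) ≤
        (({n : ℕ | (n : ℝ) < lo * NN i ∧ n ∈ Miss A B a}.ncard : ℕ) : ℝ) + _
      exact_mod_cast h1
    linarith
  set K : ℝ := 2 * c / (2 ^ θ - 1) with hK
  have hK0 : 0 ≤ K := div_nonneg (by linarith) (by linarith)
  have hg : ∀ j, g (i0 + j) ≤ g i0 + K * NN (i0 + j) ^ θ := by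
    intro j
    induction j with
    | zero =>
      have := mul_nonneg hK0 (NN_rpow_pos (i0 + 0) θ).le
      simpa using this
    | succ j ih =>
      have h1 := hstep (i0 + j) (by omega)
      have e : NN (i0 + (j + 1)) ^ θ = 2 ^ θ * NN (i0 + j) ^ θ := by
        have : NN (i0 + (j + 1)) = 2 * NN (i0 + j) := by
          unfold NN
          ring
        rw [this, Real.mul_rpow (by norm_num) (NN_pos _).le]
      have e2 : K * (2 ^ θ * NN (i0 + j) ^ θ) = K * NN (i0 + j) ^ θ + 2 * (c * NN (i0 + j) ^ θ) := by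
        have : K * (2 ^ θ - 1) = 2 * c := by
          rw [hK]
          exact div_mul_cancel₀ _ (by linarith)
        linear_combination (NN (i0 + j) ^ θ) * this
      rw [show i0 + (j + 1) = i0 + j + 1 by ring] at e ⊢
      rw [e, e2]
      linarith
  have hKc : K * 2 ^ θ = 1 / 2 := by
    rw [hK, hc]
    have : (2 : ℝ) ^ θ - 1 ≠ 0 := by linarith
    field_simp
    norm_num
  have hbig : ∀ᶠ N : ℕ in atTop, g i0 ≤ (N : ℝ) ^ θ / 2 := by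
    have h1 : Tendsto (fun N : ℕ => (N : ℝ) ^ θ) atTop atTop :=
      (tendsto_rpow_atTop hθ).comp tendsto_natCast_atTop_atTop
    filter_upwards [h1.eventually_ge_atTop (2 * g i0)] with N hN
    linarith
  have hev : ∀ᶠ N : ℕ in atTop, lo * 2 ^ i0 ≤ (N : ℝ) :=
    tendsto_natCast_atTop_atTop.eventually_ge_atTop _
  filter_upwards [hbig, hev] with N h1 h2
  have h3 : (2 : ℝ) ^ i0 ≤ (N : ℝ) / lo := by
    rw [le_div_iff₀ (by linarith)]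
    linarith
  have h4 : 1 ≤ (N : ℝ) / lo := (one_le_pow₀ (by norm_num)).trans h3
  obtain ⟨i, h5, h6⟩ := exists_nat_pow_near h4 (show (1 : ℝ) < 2 by norm_num)
  have hii : i0 ≤ i := by
    by_contra hlt
    push Not at hlt
    have h7 : (2 : ℝ) ^ (i + 1) ≤ 2 ^ i0 := pow_le_pow_right₀ (by norm_num) hlt
    linarith
  obtain ⟨j, rfl⟩ : ∃ j, i = i0 + j := ⟨i - i0, by omega⟩
  rw [le_div_iff₀ (by linarith)] at h5
  rw [div_lt_iff₀ (by linarith)] at h6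
  have h7 := hg (j + 1)
  have h8 : (({n | n ≤ N ∧ n ∈ Miss A B a}.ncard : ℕ) : ℝ) ≤ g (i0 + (j + 1)) := by
    show _ ≤ (({n : ℕ | (n : ℝ) < lo * NN (i0 + (j + 1)) ∧ n ∈ Miss A B a}.ncard : ℕ) : ℝ)
    have : {n | n ≤ N ∧ n ∈ Miss A B a}.ncard ≤
        {n : ℕ | (n : ℝ) < lo * NN (i0 + (j + 1)) ∧ n ∈ Miss A B a}.ncard := by
      refine Set.ncard_le_ncard ?_ (hfin _)
      rintro n ⟨h9, h10⟩
      refine ⟨?_, h10⟩
      have h11 : (n : ℝ) ≤ N := by exact_mod_cast h9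
      have h12 : lo * NN (i0 + (j + 1)) = 2 ^ (i0 + j + 1) * lo := by
        unfold NN
        ring
      rw [h12]
      linarith
    exact_mod_cast this
  have h9 : NN (i0 + (j + 1)) ^ θ ≤ 2 ^ θ * (N : ℝ) ^ θ := by
    rw [← Real.mul_rpow (by norm_num) (Nat.cast_nonneg N)]
    refine Real.rpow_le_rpow (NN_pos _).le ?_ hθ.le
    have : NN (i0 + (j + 1)) = 2 * 2 ^ (i0 + j) := by
      unfold NN
      ring
    rw [this]
    have h13 : (0:ℝ) < 2 ^ (i0 + j) := by positivity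
    nlinarith
  have h10 : K * NN (i0 + (j + 1)) ^ θ ≤ (N : ℝ) ^ θ / 2 := by
    refine (mul_le_mul_of_nonneg_left h9 hK0).trans (le_of_eq ?_)
    rw [← mul_assoc, hKc]
    ring
  linarith

end U131.OC
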