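import Pool.Agent.U131.OC.E

open MeasureTheory Set Filter
open scoped ENNReal Topology

namespace U131.OC
open U131.MW

lemma mem_miss {k s t n : ℕ} {a : ℝ} : n ∈ Miss (powSum k s) (powSum k t) a ↔
    ¬ ∃ x : Fin s → ℕ, ∃ y : Fin t → ℕ, (n : ℤ) = ∑ i, (x i : ℤ) ^ k + ⌊a * ∑ j, (y j : ℝ) ^ k⌋ := by
  unfold Miss
  rw [mem_setOf_eq, not_iff_not]
  constructor
  · rintro ⟨_, ⟨x, rfl⟩, _, ⟨y, rfl⟩, h⟩
    refine ⟨x, y, ?_⟩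
    rw [← h]
    push_cast
    have e : (∑ i, (x i : ℝ) ^ k) = (((∑ i, (x i : ℤ) ^ k : ℤ)) : ℝ) := by push_cast; rfl
    rw [e, Int.floor_intCast_add]
  · rintro ⟨x, y, h⟩
    refine ⟨_, ⟨x, rfl⟩, _, ⟨y, rfl⟩, ?_⟩
    rw [h]
    push_cast
    have e : (∑ i, (x i : ℝ) ^ k) = (((∑ i, (x i : ℤ) ^ k : ℤ)) : ℝ) := by push_cast; rfl
    rw [e, Int.floor_intCast_add]

/-- almost all integers -/
theorem almost_all {k : ℕ} (hk : 1 ≤ k) (s t : ℕ) {θ : ℝ} (hθ : 0 < θ) (hθ1 : θ ≤ 1) :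
    dimH {a : ℝ | 0 < a ∧ ¬ ∀ᶠ N : ℕ in atTop, ({n : ℕ | n ≤ N ∧
      ¬ ∃ x : Fin (s + 1) → ℕ, ∃ y : Fin (t + 1) → ℕ,
        (n : ℤ) = ∑ i, (x i : ℤ) ^ k + ⌊a * ∑ j, (y j : ℝ) ^ k⌋}.ncard : ℝ) ≤ (N : ℝ) ^ θ} ≤
      ENNReal.ofReal (1 - θ + ((1 - 1 / (k : ℝ)) ^ (s + 1) + (1 - 1 / (k : ℝ)) ^ (t + 1))) := by
  have hb := kbounds hk
  apply dim_union
  intro p q hp hpq
  have h2θ : 1 < (2 : ℝ) ^ θ := Real.one_lt_rpow (by norm_num) hθ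
  have h1 := dim_piece (κ := 1 - (1 - 1 / (k : ℝ)) ^ (s + 1)) (μ := 1 - (1 - 1 / (k : ℝ)) ^ (t + 1))
    (by linarith [(hb s).2]) (by linarith [(hb s).1]) (by linarith [(hb t).2]) (by linarith [(hb t).1])
    (gap_powSum hk s) (gap_powSum hk t) (τ := 0) (h := 1 / 2) (θ := θ)
    (c := (2 ^ θ - 1) / (4 * 2 ^ θ)) le_rfl
    (by norm_num) (by norm_num) hθ1 (div_pos (by linarith) (by linarith))
    (hi := 2 * (4 + 2 * q) + 1) hp hpq (by linarith)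
  have e : (3 - (1 - (1 - 1 / (k : ℝ)) ^ (s + 1)) - (1 - (1 - 1 / (k : ℝ)) ^ (t + 1)) + 2 * 0 - θ) / (1 + 0) =
      1 - θ + ((1 - 1 / (k : ℝ)) ^ (s + 1) + (1 - 1 / (k : ℝ)) ^ (t + 1)) := by ring
  rw [e] at h1
  refine (dimH_mono ?_).trans h1
  rintro a ⟨ha, ha2⟩
  by_contra hcon
  apply ha2
  have h2 := miss_count (by linarith) hθ ha hcon
  refine h2.mono fun N hN => ?_
  have e2 : {n : ℕ | n ≤ N ∧ ¬ ∃ x : Fin (s + 1) → ℕ, ∃ y : Fin (t + 1) → ℕ,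
        (n : ℤ) = ∑ i, (x i : ℤ) ^ k + ⌊a * ∑ j, (y j : ℝ) ^ k⌋} =
      {n | n ≤ N ∧ n ∈ Miss (powSum k (s + 1)) (powSum k (t + 1)) a} := by
    ext n
    rw [mem_setOf_eq, mem_setOf_eq, mem_miss]
  rw [e2]
  exact hN

lemma half {k s : ℕ} (hk : 1 ≤ k) (h : (k : ℝ) * Real.log 2 ≤ s) :
    (1 - 1 / (k : ℝ)) ^ s < 1 / 2 := by
  have hk0 : (0 : ℝ) < k := by exact_mod_cast hk
  have hl : 0 < Real.log 2 := Real.log_pos (by norm_num)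
  have hs0 : (0 : ℝ) < s := lt_of_lt_of_le (by positivity) h
  have hs : s ≠ 0 := by
    rintro rfl
    simp at hs0
  have h1 : 1 - 1 / (k : ℝ) < Real.exp (-(1 / (k : ℝ))) := by
    have := Real.add_one_lt_exp (show -(1 / (k : ℝ)) ≠ 0 by
      rw [neg_ne_zero]
      positivity)
    linarith
  have h0 : 0 ≤ 1 - 1 / (k : ℝ) := by
    have := kinv_le hk
    linarith
  calc (1 - 1 / (k : ℝ)) ^ s < (Real.exp (-(1 / (k : ℝ)))) ^ s := pow_lt_pow_left₀ h1 h0 hs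
    _ = Real.exp (-((s : ℝ) / k)) := by
        rw [← Real.exp_nat_mul]
        congr 1
        ring
    _ ≤ Real.exp (-Real.log 2) := by
        apply Real.exp_le_exp.2
        apply neg_le_neg
        rw [le_div_iff₀ hk0]
        linarith
    _ = 1 / 2 := by
        rw [Real.exp_neg, Real.exp_log (by norm_num)]
        norm_num

/-- linearly many powers, almost every coefficient -/
theorem linear {k : ℕ} (hk : 1 ≤ k) (s : ℕ) (hs : (k : ℝ) * Real.log 2 ≤ ((s + 1 : ℕ) : ℝ)) :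
    ∀ᵐ a : ℝ, 0 < a → ∀ᶠ n : ℕ in atTop, ∃ x : Fin (2 * (s + 1)) → ℕ, ∃ y : Fin (2 * (s + 1)) → ℕ,
      (n : ℤ) = ∑ i, (x i : ℤ) ^ k + ⌊a * ∑ j, (y j : ℝ) ^ k⌋ := by
  have h1 := all_floor hk s s
  have h2 := half hk hs
  have h3 : dimH {a : ℝ | 0 < a ∧ ¬ ∀ᶠ n : ℕ in atTop, ∃ x : Fin (2 * (s + 1)) → ℕ,
      ∃ y : Fin (2 * (s + 1)) → ℕ,
      (n : ℤ) = ∑ i, (x i : ℤ) ^ k + ⌊a * ∑ j, (y j : ℝ) ^ k⌋} < ((1 : NNReal) : ℝ≥0∞) := by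
    refine lt_of_le_of_lt h1 ?_
    rw [show (((1 : NNReal) : ℝ≥0∞)) = ENNReal.ofReal 1 by simp]
    exact (ENNReal.ofReal_lt_ofReal_iff (by norm_num)).2 (by linarith)
  have h4 : volume {a : ℝ | 0 < a ∧ ¬ ∀ᶠ n : ℕ in atTop, ∃ x : Fin (2 * (s + 1)) → ℕ,
      ∃ y : Fin (2 * (s + 1)) → ℕ,
      (n : ℤ) = ∑ i, (x i : ℤ) ^ k + ⌊a * ∑ j, (y j : ℝ) ^ k⌋} = 0 := by
    have h5 := hausdorffMeasure_of_dimH_lt h3
    rwa [NNReal.coe_one, hausdorffMeasure_real] at h5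
  rw [ae_iff]
  refine measure_mono_null ?_ h4
  intro a ha
  rw [mem_setOf_eq, Classical.not_imp] at ha
  exact ha

end U131.OC
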